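import Pool.Agent.H61.HB.Stmts

/-!
Row FLU of board hbg (MP_91403e_an): small fluctuations decay.
-/

set_option autoImplicit false

namespace HB

open Set Filter

theorem flu_lin0 (u : V) : lin ![1, 0] u = u 0 := by
  funext k
  simp [lin, Fin.sum_univ_two]

theorem flu_lin1 (u : V) : lin ![0, 1] u = u 1 := by
  funext k
  simp [lin, Fin.sum_univ_two]

theorem flu_dsS_nonneg (f : Z2 → ℂ) : 0 ≤ dsS f :=
  tsum_nonneg fun k => by positivity

theorem flu_nhds {T x : ℝ} (hx : x ∈ Ico 0 T) : Icc 0 T ∈ nhdsWithin x (Ici x) :=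
  mem_of_superset (Icc_mem_nhdsGE hx.2) (Icc_subset_Icc_left hx.1)

/-- derivative of the fluctuation energy -/
theorem flu_deriv (hE : ENEStmt) {ν s T : ℝ} {u : ℝ → V} (hν : 0 < ν) (hs : 2 ≤ s) (hT : 0 ≤ T)
    (H : Sol ν s T u) :
    ContinuousOn (fun t => dsq (u t)) (Icc 0 T) ∧
    ∀ t ∈ Icc 0 T, HasDerivWithinAt (fun r => flu (u r))
      (-2 * ν * dsq (u t) - 2 * prd (u t 0) (dot (u t) (u t 0)) -
        2 * prd (u t 1) (dot (u t) (u t 1))) (Icc 0 T) t := by
  obtain ⟨a0, b0⟩ := hE ν s T u hν hs hT H ![1, 0]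
  obtain ⟨a1, b1⟩ := hE ν s T u hν hs hT H ![0, 1]
  simp only [flu_lin0, flu_lin1] at a0 b0 a1 b1
  refine ⟨?_, fun t ht => ?_⟩
  · simp only [dsq, Fin.sum_univ_two]
    exact a0.add a1
  · have h := (b0 t ht).add (b1 t ht)
    simp only [dsq, flu, Fin.sum_univ_two]
    refine HasDerivWithinAt.congr_deriv h ?_
    simp only [adv]
    ring

/-- the differential inequality -/
theorem flu_ineq (hC : CANStmt) (hT : TRSStmt) (hD : DIVStmt) {u : V} (hm : Mem 2 u) (hr : Rl u) :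
    -2 * prd (u 0) (dot u (u 0)) - 2 * prd (u 1) (dot u (u 1)) ≤
      2 * √cW * √(flu u) * dsq u := by
  have hd := hD.1 u hm
  have hds : 0 ≤ dsq u := Finset.sum_nonneg fun j _ => flu_dsS_nonneg _
  have key : ∀ j, -2 * prd (u j) (dot u (u j)) ≤
      √(dsq u) * (2 * √cW * √(dsS (u j))) * √(flS (u j)) := by
    intro j
    have h1 := hC u (u j) hm hr (hm j)
    have h2 := (hT (dvg u) (u j) hd.1 (hm j)).2
    have h3 : (tr3 (dvg u) (u j)).re ≤ ‖tr3 (dvg u) (u j)‖ := Complex.re_le_norm _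
    have h4 : √(∑' l, ‖dvg u l‖ ^ 2) ≤ √(dsq u) := Real.sqrt_le_sqrt hd.2
    have h5 : √(∑' l, ‖dvg u l‖ ^ 2) * (2 * √cW * √(dsS (u j))) * √(flS (u j)) ≤
        √(dsq u) * (2 * √cW * √(dsS (u j))) * √(flS (u j)) := by
      gcongr
    linarith
  have h0 := key 0
  have h1 := key 1
  have f0 := (hD.2.2 (u 0) (hm 0)).1
  have f1 := (hD.2.2 (u 1) (hm 1)).1
  have d0 := flu_dsS_nonneg (u 0)
  have d1 := flu_dsS_nonneg (u 1)
  have cs : √(dsS (u 0)) * √(flS (u 0)) + √(dsS (u 1)) * √(flS (u 1)) ≤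
      √(dsq u) * √(flu u) := by
    simp only [dsq, flu, Fin.sum_univ_two]
    rw [← Real.sqrt_mul (add_nonneg d0 d1)]
    apply Real.le_sqrt_of_sq_le
    have e0 := Real.sq_sqrt f0
    have e1 := Real.sq_sqrt f1
    have e2 := Real.sq_sqrt d0
    have e3 := Real.sq_sqrt d1
    have : (dsS (u 0) + dsS (u 1)) * (flS (u 0) + flS (u 1)) =
        (√(dsS (u 0)) ^ 2 + √(dsS (u 1)) ^ 2) * (√(flS (u 0)) ^ 2 + √(flS (u 1)) ^ 2) := by
      rw [e0, e1, e2, e3]
    rw [this]
    nlinarith [sq_nonneg (√(dsS (u 0)) * √(flS (u 1)) - √(dsS (u 1)) * √(flS (u 0)))]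
  have e : √(dsq u) * √(dsq u) = dsq u := Real.mul_self_sqrt hds
  calc -2 * prd (u 0) (dot u (u 0)) - 2 * prd (u 1) (dot u (u 1))
      ≤ √(dsq u) * (2 * √cW * √(dsS (u 0))) * √(flS (u 0)) +
        √(dsq u) * (2 * √cW * √(dsS (u 1))) * √(flS (u 1)) := by linarith
    _ = (2 * √cW * √(dsq u)) *
        (√(dsS (u 0)) * √(flS (u 0)) + √(dsS (u 1)) * √(flS (u 1))) := by ring
    _ ≤ (2 * √cW * √(dsq u)) * (√(dsq u) * √(flu u)) :=
        mul_le_mul_of_nonneg_left cs (by positivity)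
    _ = 2 * √cW * √(flu u) * (√(dsq u) * √(dsq u)) := by ring
    _ = 2 * √cW * √(flu u) * dsq u := by rw [e]

theorem flu_thm (hE : ENEStmt) (hC : CANStmt) (hTr : TRSStmt) (hD : DIVStmt) (hM : MMBStmt) :
    FLUStmt := by
  have hw : 0 ≤ √cW := Real.sqrt_nonneg _
  refine ⟨1 / (4 * (√cW + 1)), by positivity, ?_⟩
  intro ν s T u hν hs hT H hR h0
  set c₀ : ℝ := 1 / (4 * (√cW + 1)) with hc₀
  have hc : 0 < c₀ := by positivity
  have hcw : 4 * √cW * c₀ ≤ 1 := by
    rw [hc₀, mul_one_div, div_le_one (by positivity)]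
    linarith
  obtain ⟨hDc, hd⟩ := flu_deriv hE hν hs hT H
  have hm : ∀ t ∈ Icc 0 T, Mem 2 (u t) := fun t ht =>
    (hM.2.2.2.2.1 2 s (u t) hs (H.cts.1 t ht)).1
  have hcF : ContinuousOn (fun t => flu (u t)) (Icc 0 T) := fun t ht => (hd t ht).continuousWithinAt
  have hF0 : ∀ t ∈ Icc 0 T, 0 ≤ flu (u t) := fun t ht =>
    Finset.sum_nonneg fun j _ => (hD.2.2 _ (hm t ht j)).1
  have hFD : ∀ t ∈ Icc 0 T, flu (u t) ≤ dsq (u t) := fun t ht =>
    Finset.sum_le_sum fun j _ => (hD.2.2 _ (hm t ht j)).2.1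
  -- the first bound
  have hB : ∀ t ∈ Icc 0 T, flu (u t) ≤ (2 * c₀ * ν) ^ 2 := by
    refine image_le_of_deriv_right_lt_deriv_boundary hcF
      (f' := fun t => -2 * ν * dsq (u t) - 2 * prd (u t 0) (dot (u t) (u t 0)) -
        2 * prd (u t 1) (dot (u t) (u t 1)))
      (fun x hx => (hd x ⟨hx.1, hx.2.le⟩).mono_of_mem_nhdsWithin (flu_nhds hx))
      (B := fun _ => (2 * c₀ * ν) ^ 2) (B' := fun _ => 0) ?_
      (fun x => hasDerivAt_const x _) ?_
    · have : (c₀ * ν) ^ 2 ≤ (2 * c₀ * ν) ^ 2 := by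
        nlinarith [mul_pos hc hν]
      exact h0.trans this
    · intro x hx he
      have hx' : x ∈ Icc 0 T := ⟨hx.1, hx.2.le⟩
      have h1 := flu_ineq hC hTr hD (hm x hx') (hR x hx')
      have h2 : √(flu (u x)) = 2 * c₀ * ν := by
        rw [he]; exact Real.sqrt_sq (by positivity)
      have h3 : 0 < flu (u x) := by rw [he]; positivity
      have h4 := hFD x hx'
      have h5 : 2 * √cW * √(flu (u x)) * dsq (u x) ≤ ν * dsq (u x) := by
        rw [h2]
        have : 2 * √cW * (2 * c₀ * ν) = (4 * √cW * c₀) * ν := by ring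
        rw [this]
        have h6 : 0 ≤ dsq (u x) := h3.le.trans h4
        exact mul_le_mul_of_nonneg_right (by nlinarith) h6
      have h7 : 0 < ν * dsq (u x) := mul_pos hν (h3.trans_le h4)
      show -2 * ν * dsq (u x) - 2 * prd (u x 0) (dot (u x) (u x 0)) -
        2 * prd (u x 1) (dot (u x) (u x 1)) < 0
      linarith
  -- the derivative is at most `- ν D`
  have hder : ∀ x ∈ Icc 0 T, -2 * ν * dsq (u x) - 2 * prd (u x 0) (dot (u x) (u x 0)) -
        2 * prd (u x 1) (dot (u x) (u x 1)) ≤ -ν * dsq (u x) := by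
    intro x hx'
    have h1 := flu_ineq hC hTr hD (hm x hx') (hR x hx')
    have h2 : √(flu (u x)) ≤ 2 * c₀ * ν := by
      rw [Real.sqrt_le_left (by positivity)]
      exact hB x hx'
    have h4 := hFD x hx'
    have h6 : 0 ≤ dsq (u x) := (hF0 x hx').trans h4
    have h5 : 2 * √cW * √(flu (u x)) * dsq (u x) ≤ ν * dsq (u x) := by
      refine mul_le_mul_of_nonneg_right ?_ h6
      have : 2 * √cW * √(flu (u x)) ≤ 2 * √cW * (2 * c₀ * ν) :=
        mul_le_mul_of_nonneg_left h2 (by positivity)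
      have h8 : 2 * √cW * (2 * c₀ * ν) = (4 * √cW * c₀) * ν := by ring
      nlinarith
    linarith
  intro t ht
  have hst : Icc 0 t ⊆ Icc 0 T := Icc_subset_Icc_right ht.2
  refine ⟨?_, ?_⟩
  · -- exponential decay
    have hanti : AntitoneOn (fun t => flu (u t) * Real.exp (ν * t)) (Icc 0 T) := by
      refine antitoneOn_of_hasDerivWithinAt_nonpos (convex_Icc 0 T)
        (f' := fun x => (-2 * ν * dsq (u x) - 2 * prd (u x 0) (dot (u x) (u x 0)) -
          2 * prd (u x 1) (dot (u x) (u x 1))) * Real.exp (ν * x) +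
          flu (u x) * (Real.exp (ν * x) * ν))
        (hcF.mul (by fun_prop)) ?_ ?_
      · intro x hx
        have h1 := (hd x (interior_subset hx)).mono (interior_subset (s := Icc 0 T))
        have h2 : HasDerivAt (fun x => Real.exp (ν * x)) (Real.exp (ν * x) * ν) x := by
          have := ((hasDerivAt_id x).const_mul ν).exp
          simpa using this
        exact h1.mul h2.hasDerivWithinAt
      · intro x hx
        have hx' := interior_subset hx
        have h1 := hder x hx'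
        have h2 := hFD x hx'
        have h3 : 0 < Real.exp (ν * x) := Real.exp_pos _
        have h4 : (-2 * ν * dsq (u x) - 2 * prd (u x 0) (dot (u x) (u x 0)) -
          2 * prd (u x 1) (dot (u x) (u x 1))) + ν * flu (u x) ≤ 0 := by
          have := mul_le_mul_of_nonneg_left h2 hν.le
          linarith
        nlinarith
    have h1 := hanti ⟨le_refl 0, hT⟩ ht ht.1
    simp only [mul_zero, Real.exp_zero, mul_one] at h1
    have h2 : 0 < Real.exp (ν * t) := Real.exp_pos _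
    have h3 : Real.exp (-ν * t) = (Real.exp (ν * t))⁻¹ := by
      rw [← Real.exp_neg]; congr 1; ring
    rw [h3, ← div_eq_mul_inv, le_div_iff₀ h2]
    exact h1
  · have hint : MeasureTheory.IntegrableOn (fun y => -ν * dsq (u y)) (Icc 0 t) := by
      apply ContinuousOn.integrableOn_Icc
      exact continuousOn_const.mul (hDc.mono hst)
    have h1 := intervalIntegral.sub_le_integral_of_hasDeriv_right_of_le ht.1 (hcF.mono hst)
      (g' := fun x => -2 * ν * dsq (u x) - 2 * prd (u x 0) (dot (u x) (u x 0)) -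
        2 * prd (u x 1) (dot (u x) (u x 1))) (φ := fun y => -ν * dsq (u y))
      (fun x hx => ((hd x ⟨hx.1.le, hx.2.le.trans ht.2⟩).mono_of_mem_nhdsWithin
        (flu_nhds ⟨hx.1.le, hx.2.trans_le ht.2⟩)).mono Ioi_subset_Ici_self)
      hint (fun x hx => hder x ⟨hx.1.le, hx.2.le.trans ht.2⟩)
    rw [intervalIntegral.integral_const_mul] at h1
    have h2 := hF0 t ht
    rw [le_div_iff₀ hν]
    linarith

end HB
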