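import Pool.Agent.H61.HB.Stmts

/-!
Row RES of board hbg (MP_91403e_an): restriction, shift, congruence of solutions.
-/

set_option autoImplicit false

namespace HB

open Set Filter

theorem res_restrict {ν s T T' : ℝ} {u : ℝ → V} (h : T' ≤ T) (H : Sol ν s T u) : Sol ν s T' u := by
  have hs : Icc 0 T' ⊆ Icc 0 T := Icc_subset_Icc_right h
  refine ⟨⟨fun t ht => H.cts.1 t (hs ht), fun t ht => ?_⟩, fun j k t ht => ?_⟩
  · exact (H.cts.2 t (hs ht)).mono_left (nhdsWithin_mono _ hs)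
  · exact (H.eqn j k t (hs ht)).mono hs

theorem res_shift {ν s T₁ T₂ : ℝ} {u : ℝ → V} (h : 0 ≤ T₁) (H : Sol ν s (T₁ + T₂) u) :
    Sol ν s T₂ (fun t => u (T₁ + t)) := by
  have hm : MapsTo (fun t : ℝ => T₁ + t) (Icc 0 T₂) (Icc 0 (T₁ + T₂)) := by
    intro t ht
    exact ⟨by have := ht.1; linarith, by have := ht.2; linarith⟩
  have hc : ∀ t : ℝ, ContinuousWithinAt (fun t : ℝ => T₁ + t) (Icc 0 T₂) t := fun t =>
    (continuous_const.add continuous_id).continuousWithinAt
  refine ⟨⟨fun t ht => H.cts.1 _ (hm ht), fun t ht => ?_⟩, fun j k t ht => ?_⟩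
  · exact (H.cts.2 _ (hm ht)).comp ((hc t).tendsto_nhdsWithin hm)
  · have h1 := H.eqn j k (T₁ + t) (hm ht)
    have h2 : HasDerivWithinAt (fun t : ℝ => T₁ + t) 1 (Icc 0 T₂) t :=
      ((hasDerivAt_id t).const_add T₁).hasDerivWithinAt
    have h3 := HasDerivWithinAt.scomp t h1 h2 hm
    simpa [Function.comp_def] using h3

theorem res_congr {ν s T : ℝ} {u v : ℝ → V} (h : ∀ t ∈ Icc 0 T, u t = v t) (H : Sol ν s T u) :
    Sol ν s T v := by
  refine ⟨⟨fun t ht => h t ht ▸ H.cts.1 t ht, fun t ht => ?_⟩, fun j k t ht => ?_⟩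
  · refine (H.cts.2 t ht).congr' ?_
    filter_upwards [self_mem_nhdsWithin] with r hr
    rw [h t ht, h r hr]
  · have h1 := H.eqn j k t ht
    rw [← h t ht]
    exact h1.congr (fun r hr => by rw [h r hr]) (by rw [h t ht])

theorem res_const {ν s : ℝ} {u : V} (H : Mem s u) : Sol ν s 0 (fun _ => u) := by
  refine ⟨⟨fun _ _ => H, fun t _ => ?_⟩, fun j k t ht => ?_⟩
  · have : (fun _ : ℝ => nsq s (u - u)) = fun _ => 0 := by
      funext _
      simp [nsq, nqS]
    rw [this]
    exact tendsto_const_nhds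
  · have h0 : t = 0 := le_antisymm ht.2 ht.1
    subst h0
    rw [Icc_self]
    exact HasFDerivWithinAt.of_subsingleton subsingleton_singleton

theorem res_thm : RESStmt :=
  ⟨fun _ _ _ _ _ h H => res_restrict h H, fun _ _ _ _ _ h H => res_shift h H,
    fun _ _ _ _ _ h H => res_congr h H, fun _ _ _ H => res_const H⟩

end HB
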