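import Pool.Agent.H61.HB.Stmts4

/-!
Project HB, row CRO (cross terms).
-/

set_option autoImplicit false

namespace HB

theorem cro_sq_car (N : ℤ) (i : Fin 4) : sq (car N i) = (N : ℝ) ^ 2 := by
  have h : ((sgn i : ℤ) : ℝ) ^ 2 = 1 := by
    unfold sgn
    split_ifs <;> norm_num
  unfold car sq
  split_ifs
  · push_cast
    rw [mul_pow, h]
    ring
  · push_cast
    rw [mul_pow, h]
    ring

theorem cro_sh_zero (p : V) : sh 0 p = p := by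
  funext j k
  simp [sh]

theorem cro_shf (hSHF : SHFStmt) {M N : ℝ} {c : Z2} {q : V} (hM : 0 ≤ M) (hN : 2 * M ≤ N)
    (hN1 : 1 ≤ N) (hc : N ^ 2 ≤ sq c) (hq : Fs M q) {A B : ℝ} (hA : 0 ≤ A)
    (hb : nsq 0 q ≤ A + B * N ^ 2) :
    Mem (-1) (sh c q) ∧ nsq (-1) (sh c q) ≤ 4 * A + 4 * B := by
  obtain ⟨h1, h2⟩ := hSHF M N (-1) c q hM hN (by linarith) hc (by norm_num) hq
  refine ⟨h1, h2.trans ?_⟩
  rw [Real.rpow_neg_one]
  have hN2 : 1 ≤ N ^ 2 := by nlinarith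
  have e : (N ^ 2 / 4)⁻¹ = 4 / N ^ 2 := by
    rw [inv_div]
  rw [e, div_mul_eq_mul_div, div_le_iff₀ (by linarith)]
  nlinarith

theorem cro_one (hASH : ASHStmt) (hMUB : MUBStmt) (hSHF : SHFStmt) (hFSB : FSBStmt)
    (hMMB : MMBStmt) (M : ℝ) (p g : V) (hM : 0 ≤ M) (hp : Fs M p) (hg : Fs M g) :
    ∃ K : ℝ, 0 ≤ K ∧ ∀ (N : ℕ) (c : Z2), 4 * M ≤ N → 1 ≤ N → sq c = (N : ℝ) ^ 2 →
      Mem (-1) (adv p (sh c g) + adv (sh c g) p) ∧
      nsq (-1) (adv p (sh c g) + adv (sh c g) p) ≤ K := by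
  obtain ⟨-, f2, f3, f4, -, -, -⟩ := hFSB
  obtain ⟨-, -, -, m4, -, m6⟩ := hMMB
  obtain ⟨K1, hK1, k1⟩ := hMUB M p g hM hp hg
  obtain ⟨K2, hK2, k2⟩ := hMUB M g p hM hg hp
  have hA1 := m4 0 (adv p g)
  have hA2 := m4 0 (adv g p)
  refine ⟨2 * (4 * (2 * nsq 0 (adv p g)) + 4 * (2 * K1)) +
    2 * (4 * (2 * nsq 0 (adv g p)) + 4 * 0), by positivity, ?_⟩
  intro N c hN hN1 hc
  have hNr : (1 : ℝ) ≤ N := by exact_mod_cast hN1
  have e1 : adv p (sh c g) = sh c (adv p g + mul c p g) := by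
    have := hASH M 0 c p g hM hp hg
    rwa [cro_sh_zero, zero_add] at this
  have e2 : adv (sh c g) p = sh c (adv g p + mul 0 g p) := by
    have := hASH M c 0 g p hM hg hp
    rwa [cro_sh_zero, add_zero] at this
  obtain ⟨a1, a2⟩ := f4 M M p g hM hM hp hg
  obtain ⟨b1, b2⟩ := f4 M M g p hM hM hg hp
  have q1 : nsq 0 (adv p g + mul c p g) ≤ 2 * nsq 0 (adv p g) + 2 * K1 * (N : ℝ) ^ 2 := by
    have h := (m6 0 (adv p g) (mul c p g) (f2 _ 0 _ a1) (f2 _ 0 _ (a2 c))).2.2.2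
    have h' := k1 c
    rw [hc] at h'
    nlinarith
  have q2 : nsq 0 (adv g p + mul 0 g p) ≤ 2 * nsq 0 (adv g p) + 0 * (N : ℝ) ^ 2 := by
    have h := (m6 0 (adv g p) (mul 0 g p) (f2 _ 0 _ b1) (f2 _ 0 _ (b2 0))).2.2.2
    have h' := k2 0
    have h0 : sq (0 : Z2) = 0 := by simp [sq]
    rw [h0] at h'
    nlinarith
  have r1 := cro_shf hSHF (M := M + M) (N := N) (c := c) (q := adv p g + mul c p g)
    (by linarith) (by linarith) hNr (le_of_eq hc.symm) (f3 _ _ _ a1 (a2 c)).1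
    (A := 2 * nsq 0 (adv p g)) (B := 2 * K1) (by linarith) q1
  have r2 := cro_shf hSHF (M := M + M) (N := N) (c := c) (q := adv g p + mul 0 g p)
    (by linarith) (by linarith) hNr (le_of_eq hc.symm) (f3 _ _ _ b1 (b2 0)).1
    (A := 2 * nsq 0 (adv g p)) (B := 0) (by linarith) q2
  rw [e1, e2]
  have h := m6 (-1) _ _ r1.1 r2.1
  exact ⟨h.2.1, h.2.2.2.trans (by linarith [r1.2, r2.2])⟩

theorem cro_thm (hABL : ABLStmt) (hASH : ASHStmt) (hMUB : MUBStmt) (hSHF : SHFStmt)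
    (hFSB : FSBStmt) (hMMB : MMBStmt) : CROStmt := by
  intro ν M p hM hp
  have f2 := hFSB.2.1
  have f6 := hFSB.2.2.2.2.2.1
  have f7 := hFSB.2.2.2.2.2.2
  have m6 := hMMB.2.2.2.2.2
  choose K hK hb using fun i : Fin 4 =>
    cro_one hASH hMUB hSHF hFSB hMMB M p (pro ν p i) hM hp (f6 M ν p hM hp i)
  refine ⟨8 * K 0 + 8 * K 1 + 4 * K 2 + 2 * K 3, ⌈4 * M⌉₊, by
    have h0 := hK 0
    have h1 := hK 1
    have h2 := hK 2
    have h3 := hK 3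
    positivity, ?_⟩
  intro N hN hN1
  have hN' : 4 * M ≤ N := (Nat.le_ceil _).trans (by exact_mod_cast hN)
  set W : Fin 4 → V := fun i => sh (car (N : ℤ) i) (pro ν p i) with hW
  have hWm : ∀ i, Mem 2 (W i) := fun i => f2 _ 2 _ (f7 M _ _ hM (f6 M ν p hM hp i))
  have hpm : Mem 2 p := f2 M 2 p hp
  have hosc : osc ν p (N : ℤ) = ((W 0 + W 1) + W 2) + W 3 := by
    funext j k
    simp only [osc, Fin.sum_univ_four, Pi.add_apply, hW]
  have hm01 : Mem 2 (W 0 + W 1) := (m6 2 _ _ (hWm 0) (hWm 1)).2.1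
  have hm012 : Mem 2 (W 0 + W 1 + W 2) := (m6 2 _ _ hm01 (hWm 2)).2.1
  have e1 : adv p (osc ν p (N : ℤ)) = adv p (W 0) + adv p (W 1) + adv p (W 2) + adv p (W 3) := by
    rw [hosc, (hABL _ _ p hm012 (hWm 3) hpm).2.1, (hABL _ _ p hm01 (hWm 2) hpm).2.1,
      (hABL _ _ p (hWm 0) (hWm 1) hpm).2.1]
  have e2 : adv (osc ν p (N : ℤ)) p = adv (W 0) p + adv (W 1) p + adv (W 2) p + adv (W 3) p := by
    rw [hosc, (hABL _ _ p hm012 (hWm 3) hpm).1, (hABL _ _ p hm01 (hWm 2) hpm).1,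
      (hABL _ _ p (hWm 0) (hWm 1) hpm).1]
  have e3 : adv p (osc ν p (N : ℤ)) + adv (osc ν p (N : ℤ)) p =
      (adv p (W 0) + adv (W 0) p) + (adv p (W 1) + adv (W 1) p) + (adv p (W 2) + adv (W 2) p) +
        (adv p (W 3) + adv (W 3) p) := by
    rw [e1, e2]
    abel
  rw [e3]
  have hT : ∀ i, Mem (-1) (adv p (W i) + adv (W i) p) ∧
      nsq (-1) (adv p (W i) + adv (W i) p) ≤ K i := fun i =>
    hb i N (car (N : ℤ) i) hN' hN1 (by rw [cro_sq_car]; simp)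
  have s1 := m6 (-1) _ _ (hT 0).1 (hT 1).1
  have s2 := m6 (-1) _ _ s1.2.1 (hT 2).1
  have s3 := m6 (-1) _ _ s2.2.1 (hT 3).1
  linarith [s1.2.2.2, s2.2.2.2, s3.2.2.2, (hT 0).2, (hT 1).2, (hT 2).2, (hT 3).2]

end HB
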